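import Pool.Agent.Work.MP_ef7f46_tn.Interface

/-!
# Block ADP: the state before batch `i` depends only on the earlier batches
-/

set_option autoImplicit false
open Classical Finset

namespace TN

theorem adp_ok : Stmt_ADP := by
  intro Q Λ _ _ X z z' I i
  induction i with
  | zero => intro _; rfl
  | succ i ih =>
    intro h
    have hi : st X z I i = st X z' I i := ih fun p hp => h p (Nat.lt_succ_of_lt hp)
    by_cases hm : i < X.m
    · have hz : (fun j : Fin X.b => z ((⟨i, hm⟩ : Fin X.m), j)) =
          fun j : Fin X.b => z' ((⟨i, hm⟩ : Fin X.m), j) := by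
        funext j
        exact h ((⟨i, hm⟩ : Fin X.m), j) (Nat.lt_succ_self i)
      simp only [st, dif_pos hm]
      rw [hi, hz]
    · simp only [st, dif_neg hm]
      exact hi

end TN
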